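import Pool.Agent.H32.BinRecol

set_option autoImplicit false

namespace Pool.Agent.Results.MP_ea4033_co.Dismantle

open Pool.Agent.H32.BinRecol

/-- If the colouring graph into the nonempty binary matroid `S` is connected for every binary
matroid `T`, then `S` dismantles to a one-element matroid (the loop or the edge). -/
theorem result (V : Type) [AddCommGroup V] [Module (ZMod 2) V] (S : Finset V) (hS : S.Nonempty)
    (h : ∀ (W : Type) [AddCommGroup W] [Module (ZMod 2) W] (T : Finset W), ColConn T S) :
    ∃ S', Relation.ReflTransGen Step S S' ∧ S'.card = 1 :=
  main S hS h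

end Pool.Agent.Results.MP_ea4033_co.Dismantle
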